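import Pool.Agent.N641.VB.Stm7

set_option autoImplicit false

/-!
# Project VB (helper641), part RNB (helper521): rings with `x ^ m = x` are bi-interpretable with
Boolean algebras with ideals
-/

namespace Pool.Agent.N521.VB

open FirstOrder FirstOrder.Language
open Pool.Agent.N641.VB

section Def

variable {L : FirstOrder.Language.{0, 0}} {U : Type} {S : L.Structure U}

theorem dcongr {α : Type} {s t : (α → U) → Prop} (h : DefP S s) (hst : ∀ v, s v ↔ t v) :
    DefP S t := by
  have e : s = t := funext fun v => propext (hst v)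
  rwa [← e]

theorem dnot (P : S_DPC) {α : Type} {s : (α → U) → Prop} (h : DefP S s) :
    DefP S (fun v => ¬ s v) := (P L U S).1 α s h

theorem dand (P : S_DPC) {α : Type} {s t : (α → U) → Prop} (h : DefP S s) (h' : DefP S t) :
    DefP S (fun v => s v ∧ t v) := (P L U S).2.1 α s t h h'

theorem dimp (P : S_DPC) {α : Type} {s t : (α → U) → Prop} (h : DefP S s) (h' : DefP S t) :
    DefP S (fun v => s v → t v) := (P L U S).2.2.2.1 α s t h h'

theorem dre (P : S_DPC) {α β : Type} {s : (α → U) → Prop} (h : DefP S s) (f : α → β) :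
    DefP S (fun v : β → U => s (v ∘ f)) := (P L U S).2.2.2.2.1 α β s f h

theorem dex (P : S_DPC) {α β : Type} [Finite β] {s : (α ⊕ β → U) → Prop} (h : DefP S s) :
    DefP S (fun v => ∃ w : β → U, s (Sum.elim v w)) := ((P L U S).2.2.2.2.2.1 α β s h).1

theorem dall (P : S_DPC) {α β : Type} [Finite β] {s : (α ⊕ β → U) → Prop} (h : DefP S s) :
    DefP S (fun v => ∀ w : β → U, s (Sum.elim v w)) := ((P L U S).2.2.2.2.2.1 α β s h).2

theorem dfin (P : S_DPC) {α ι : Type} [Finite ι] {s : ι → (α → U) → Prop}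
    (h : ∀ i, DefP S (s i)) : DefP S (fun v => ∀ i, s i v) :=
  ((P L U S).2.2.2.2.2.2.1 α ι s h).1

theorem deq (P : S_DPC) {α : Type} (i j : α) : DefP S (fun v : α → U => v i = v j) :=
  (P L U S).2.2.2.2.2.2.2.1 α i j

theorem dpar (P : S_DPC) {α : Type} (i : α) (c : U) : DefP S (fun v : α → U => v i = c) :=
  (P L U S).2.2.2.2.2.2.2.2.1 α i c

theorem drel (P : S_DPC) {α : Type} {l : ℕ} (R : L.Relations l) (h : Fin l → α) :
    DefP S (fun v : α → U => @Structure.RelMap L U S l R (fun i => v (h i))) :=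
  (P L U S).2.2.2.2.2.2.2.2.2.1 α l R h

theorem dfunc (P : S_DPC) {α : Type} {l : ℕ} (F : L.Functions l) (h : Fin l → α) (j : α) :
    DefP S (fun v : α → U => @Structure.funMap L U S l F (fun i => v (h i)) = v j) :=
  (P L U S).2.2.2.2.2.2.2.2.2.2.1 α l F h j

theorem dconst (P : S_DPC) {α : Type} (X : Prop) : DefP S (fun _ : α → U => X) :=
  (P L U S).2.2.2.2.2.2.2.2.2.2.2 α X

theorem dex1 (P : S_DPC) {α : Type} {s : U → (α → U) → Prop}
    (h : DefP S (fun v : α ⊕ Fin 1 → U => s (v (Sum.inr 0)) (fun a => v (Sum.inl a)))) :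
    DefP S (fun v => ∃ z, s z v) := by
  refine dcongr (dex P h) fun v => ?_
  constructor
  · rintro ⟨w, hw⟩
    exact ⟨w 0, hw⟩
  · rintro ⟨z, hz⟩
    exact ⟨fun _ => z, hz⟩

theorem dall1 (P : S_DPC) {α : Type} {s : U → (α → U) → Prop}
    (h : DefP S (fun v : α ⊕ Fin 1 → U => s (v (Sum.inr 0)) (fun a => v (Sum.inl a)))) :
    DefP S (fun v => ∀ z, s z v) := by
  refine dcongr (dall P h) fun v => ?_
  constructor
  · intro hw z
    exact hw fun _ => z
  · intro hz w
    exact hz (w 0)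

/-- definable functions -/
def DT (S : L.Structure U) {α : Type} (τ : (α → U) → U) : Prop :=
  DefP S (fun v : α ⊕ Fin 1 → U => v (Sum.inr 0) = τ (fun a => v (Sum.inl a)))

theorem DT_var (P : S_DPC) {α : Type} (i : α) : DT S (fun v : α → U => v i) :=
  deq P (Sum.inr 0) (Sum.inl i)

theorem DT_par (P : S_DPC) {α : Type} (c : U) : DT S (fun _ : α → U => c) :=
  dpar P (Sum.inr 0) c

theorem DT_op (P : S_DPC) {op : U → U → U}
    (hop : ∀ (β : Type) (i j k : β), DefP S (fun v : β → U => v k = op (v i) (v j)))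
    {α : Type} {τ σ : (α → U) → U} (hτ : DT S τ) (hσ : DT S σ) :
    DT S (fun v => op (τ v) (σ v)) := by
  have h1 : DefP S (fun u : (α ⊕ Fin 1) ⊕ Fin 2 → U =>
      u (Sum.inr 0) = τ (fun a => u (Sum.inl (Sum.inl a)))) :=
    dre P hτ (Sum.elim (fun a => Sum.inl (Sum.inl a)) (fun _ => Sum.inr 0) :
      α ⊕ Fin 1 → (α ⊕ Fin 1) ⊕ Fin 2)
  have h2 : DefP S (fun u : (α ⊕ Fin 1) ⊕ Fin 2 → U =>
      u (Sum.inr 1) = σ (fun a => u (Sum.inl (Sum.inl a)))) :=
    dre P hσ (Sum.elim (fun a => Sum.inl (Sum.inl a)) (fun _ => Sum.inr 1) :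
      α ⊕ Fin 1 → (α ⊕ Fin 1) ⊕ Fin 2)
  have h3 := hop ((α ⊕ Fin 1) ⊕ Fin 2) (Sum.inr 0) (Sum.inr 1) (Sum.inl (Sum.inr 0))
  refine dcongr (dex P (dand P h1 (dand P h2 h3))) fun v => ?_
  constructor
  · rintro ⟨w, e1, e2, e3⟩
    have e1' : w 0 = τ (fun a => v (Sum.inl a)) := e1
    have e2' : w 1 = σ (fun a => v (Sum.inl a)) := e2
    have e3' : v (Sum.inr 0) = op (w 0) (w 1) := e3
    rw [e3', e1', e2']
  · intro e
    exact ⟨![τ (fun a => v (Sum.inl a)), σ (fun a => v (Sum.inl a))], rfl, rfl, e⟩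

theorem deqT (P : S_DPC) {α : Type} {τ σ : (α → U) → U} (hτ : DT S τ) (hσ : DT S σ) :
    DefP S (fun v => τ v = σ v) := by
  refine dcongr (dex1 (s := fun z v => z = τ v ∧ z = σ v) P (dand P hτ hσ)) fun v => ?_
  constructor
  · rintro ⟨z, e1, e2⟩
    rw [← e1, ← e2]
  · intro e
    exact ⟨τ v, rfl, e⟩

end Def

section Alg

variable {p m : ℕ} [Fact p.Prime] {R : Type} [CommRing R] {ev : KC p m → R → R}

/-- membership in the ideal -/
def Q (ev : KC p m → R → R) (c : KC p m) (b : R) : Prop := ∃ x, b * ev c x = b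

theorem loc (h : EvD p m ev) {b x y : R} (hb : b * b = b) (hxy : b * x = b * y) (c : KC p m) :
    b * ev c x = b * ev c y := by
  have h1 := h.glue b x 0 c hb
  have h2 := h.glue b y 0 c hb
  rw [hxy] at h1
  rw [h1] at h2
  exact add_right_cancel h2

theorem op_iff (h : EvD p m ev) (op : R → R → R) (ρ : KC p m → KC p m → KC p m → Prop)
    (h1 : ∀ c d e x y, ρ c d e → ev c x * ev d y * ev e (op x y) = ev c x * ev d y)
    (h2 : ∀ c d x y, (∀ e, ¬ ρ c d e) → ev c x * ev d y = 0) (x y z : R) :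
    op x y = z ↔ ∀ c d e, ρ c d e → ev c x * ev d y * ev e z = ev c x * ev d y := by
  constructor
  · rintro rfl c d e hr
    exact h1 c d e x y hr
  · intro H
    apply h.inj
    intro e
    rw [← sub_eq_zero]
    apply h.total x
    intro c
    apply h.total y
    intro d
    by_cases hr : ∃ e', ρ c d e'
    · obtain ⟨e', he'⟩ := hr
      have k1 := h1 c d e' x y he'
      have k2 := H c d e' he'
      by_cases hee : e = e'
      · subst hee
        linear_combination k1 - k2
      · have o1 := h.orth e e' (op x y) hee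
        have o2 := h.orth e e' z hee
        linear_combination (-(ev e (op x y))) * k1 + (ev c x * ev d y) * o1 + (ev e z) * k2 -
          (ev c x * ev d y) * o2
    · have k := h2 c d x y fun e' he' => hr ⟨e', he'⟩
      linear_combination (ev e (op x y) - ev e z) * k

theorem mul_iff (h : EvD p m ev) (x y z : R) : x * y = z ↔ ∀ c d e : KC p m,
    e.1 = c.1 * d.1 → ev c x * ev d y * ev e z = ev c x * ev d y :=
  op_iff h (fun x y => x * y) (fun c d e => e.1 = c.1 * d.1)
    (fun c d e x y he => h.mul c d e x y he)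
    (fun c d x y hn => absurd rfl (hn ⟨c.1 * d.1, by rw [mul_pow, c.2, d.2]⟩)) x y z

theorem add_iff' (h : EvD p m ev) (x y z : R) : x + y = z ↔ ∀ c d e : KC p m,
    e.1 = c.1 + d.1 → ev c x * ev d y * ev e z = ev c x * ev d y :=
  op_iff h (fun x y => x + y) (fun c d e => e.1 = c.1 + d.1)
    (fun c d e x y he => h.add c d e x y he)
    (fun c d x y hn => h.add' c d x y hn) x y z

theorem idem_iff (h : EvD p m ev) (y : R) :
    y * y = y ↔ ∀ c : KC p m, c.1 ≠ 0 → c.1 ≠ 1 → ev c y = 0 := by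
  constructor
  · intro hy c h0 h1
    have k := h.mul c c ⟨c.1 * c.1, by rw [mul_pow, c.2]⟩ y y rfl
    rw [hy] at k
    have o := h.orth c ⟨c.1 * c.1, by rw [mul_pow, c.2]⟩ y (by
      intro e
      have e1 : c.1 = c.1 * c.1 := congrArg Subtype.val e
      exact h1 (mul_left_cancel₀ h0 (by rw [mul_one]; exact e1.symm)))
    have i := h.idem c y
    linear_combination (-1 : R) * k + (ev c y) * o - i
  · intro H
    rw [mul_iff h]
    intro c d e he
    by_cases hcd : c = d
    · subst hcd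
      by_cases h0 : c.1 = 0
      · have e1 : e = c := Subtype.ext (by rw [he, h0, mul_zero])
        rw [e1, h.idem, h.idem]
      · by_cases h1 : c.1 = 1
        · have e1 : e = c := Subtype.ext (by rw [he, h1, mul_one])
          rw [e1, h.idem, h.idem]
        · rw [H c h0 h1]
          ring
    · rw [h.orth c d y hcd]
      ring

theorem exist_g (h : EvD p m ev) [Finite (KC p m)] (X : KC p m → R)
    (hi : ∀ c, X c * X c = X c) (ho : ∀ c d, c ≠ d → X c * X d = 0)
    (ht : ∀ b, b * b = b → (∀ c, b * X c = 0) → b = 0) (hq : ∀ c, Q ev c (X c)) :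
    ∃ y, ∀ c, ev c y = X c := by
  classical
  have := Fintype.ofFinite (KC p m)
  choose Y hY using hq
  have hX : ∀ d, (∑ c, X c) * X d = X d := by
    intro d
    rw [Finset.sum_mul, Finset.sum_eq_single d]
    · exact hi d
    · intro c _ hcd
      exact ho c d hcd
    · intro hd
      exact absurd (Finset.mem_univ _) hd
  have hs : (∑ c, X c) * (∑ c, X c) = ∑ c, X c := by
    rw [Finset.mul_sum]
    exact Finset.sum_congr rfl fun d _ => hX d
  have hsum : ∑ c, X c = 1 := by
    have h1 := ht (1 - ∑ c, X c) (by linear_combination hs)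
      (fun c => by rw [sub_mul, one_mul, hX, sub_self])
    exact (sub_eq_zero.1 h1).symm
  have hy : ∀ d, X d * (∑ c, X c * Y c) = X d * Y d := by
    intro d
    rw [Finset.mul_sum, Finset.sum_eq_single d]
    · rw [← mul_assoc, hi]
    · intro c _ hcd
      rw [← mul_assoc, ho d c (Ne.symm hcd), zero_mul]
    · intro hd
      exact absurd (Finset.mem_univ _) hd
  have h1 : ∀ c, X c * ev c (∑ c, X c * Y c) = X c := fun c =>
    (loc h (hi c) (hy c) c).trans (hY c)
  have h2 : ∀ c d, c ≠ d → X d * ev c (∑ c, X c * Y c) = 0 := by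
    intro c d hcd
    have o := h.orth c d (∑ c, X c * Y c) hcd
    have k := h1 d
    linear_combination (-(ev c (∑ c, X c * Y c))) * k + X d * o
  refine ⟨∑ c, X c * Y c, fun c => ?_⟩
  calc ev c (∑ c, X c * Y c) = (∑ d, X d) * ev c (∑ c, X c * Y c) := by rw [hsum, one_mul]
    _ = ∑ d, X d * ev c (∑ c, X c * Y c) := Finset.sum_mul _ _ _
    _ = X c * ev c (∑ c, X c * Y c) :=
        Finset.sum_eq_single c (fun d _ hd => h2 c d (Ne.symm hd))
          (fun hd => absurd (Finset.mem_univ _) hd)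
    _ = X c := h1 c

/-- the Boolean algebra of the idempotents -/
abbrev BB (R : Type) [CommRing R] : Type := {a : R // IsIdempotentElem a}

theorem inf_val (a b : BB R) : (a ⊓ b).1 = a.1 * b.1 := rfl

theorem bot_val : (⊥ : BB R).1 = 0 := rfl

theorem le_val (a b : BB R) : a ≤ b ↔ a.1 * b.1 = a.1 := Iff.rfl

theorem inf_bot_iff (a b : BB R) : a ⊓ b = ⊥ ↔ a.1 * b.1 = 0 := by
  rw [Subtype.ext_iff]
  exact Iff.rfl

/-- the measure -/
def muQ (ev : KC p m → R → R) (b : BB R) : Set (KC p m) := {c | ¬ Q ev c b.1}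

/-- the monoid of the subsets with the union -/
@[reducible] def unionM (X : Type) : AddCommMonoid (Set X) where
  add := fun a b => a ∪ b
  zero := ∅
  add_assoc := fun a b c => Set.union_assoc a b c
  zero_add := fun a => Set.empty_union a
  add_zero := fun a => Set.union_empty a
  add_comm := fun a b => Set.union_comm a b
  nsmul := @nsmulRec _ ⟨∅⟩ ⟨fun a b => a ∪ b⟩

theorem am_muQ (h : EvD p m ev) : @AM (Set (KC p m)) (unionM _) (BB R) _ (muQ ev) := by
  refine @AM.mk _ (unionM _) (BB R) _ _ ?_ ?_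
  · show muQ ev (⊥ : BB R) = (∅ : Set (KC p m))
    ext c
    simp only [muQ, Set.mem_ofPred_eq, Set.mem_empty_iff_false, iff_false, not_not]
    exact ⟨0, by rw [bot_val, zero_mul]⟩
  · intro a b hab
    show muQ ev (a ⊔ b) = muQ ev a ∪ muQ ev b
    have hab0 : a.1 * b.1 = 0 := (inf_bot_iff a b).1 (disjoint_iff.1 hab)
    have hs : (a ⊔ b).1 = a.1 + b.1 := by
      show a.1 + b.1 - a.1 * b.1 = _
      rw [hab0, sub_zero]
    have ha : a.1 * a.1 = a.1 := a.2
    have hb : b.1 * b.1 = b.1 := b.2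
    have key : ∀ c, Q ev c (a ⊔ b).1 ↔ Q ev c a.1 ∧ Q ev c b.1 := by
      intro c
      unfold Q
      rw [hs]
      constructor
      · rintro ⟨x, hx⟩
        refine ⟨⟨x, ?_⟩, ⟨x, ?_⟩⟩
        · linear_combination a.1 * hx - (ev c x - 1) * ha - (ev c x - 1) * hab0
        · linear_combination b.1 * hx - (ev c x - 1) * hb - (ev c x - 1) * hab0
      · rintro ⟨⟨x, hx⟩, ⟨y, hy⟩⟩
        refine ⟨a.1 * x + (1 - a.1) * y, ?_⟩
        rw [h.glue a.1 x y c ha]
        linear_combination hx + hy + (ev c x - ev c y) * ha + (ev c x - ev c y) * hab0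
    ext c
    simp only [muQ, Set.mem_ofPred_eq, Set.mem_union, key]
    tauto

/-- the tuples which represent elements of the ring -/
def DD (ev : KC p m → R → R) (X : KC p m → BB R) : Prop :=
  (∀ c d, c ≠ d → X c ⊓ X d = ⊥) ∧ (∀ z : BB R, (∀ c, z ⊓ X c = ⊥) → z = ⊥) ∧
    ∀ c, Q ev c (X c).1

open Classical in
/-- the element of the ring given by a tuple -/
noncomputable def gg (ev : KC p m → R → R) (X : KC p m → BB R) : R :=
  if h : ∃ y, ∀ c, ev c y = (X c).1 then h.choose else 0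

theorem gg_spec (h : EvD p m ev) [Finite (KC p m)] {X : KC p m → BB R} (hX : DD ev X)
    (c : KC p m) : ev c (gg ev X) = (X c).1 := by
  have h1 : ∃ y, ∀ c, ev c y = (X c).1 :=
    exist_g h (fun c => (X c).1) (fun c => (X c).2)
      (fun c d hcd => (inf_bot_iff _ _).1 (hX.1 c d hcd))
      (fun b hb hbc => by
        have := hX.2.1 ⟨b, hb⟩ fun c => (inf_bot_iff _ _).2 (hbc c)
        exact congrArg Subtype.val this) hX.2.2
  unfold gg
  rw [dif_pos h1]
  exact h1.choose_spec c

theorem gg_onto (h : EvD p m ev) [Finite (KC p m)] (y : R) :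
    DD ev (fun c => (⟨ev c y, h.idem c y⟩ : BB R)) ∧
      gg ev (fun c => (⟨ev c y, h.idem c y⟩ : BB R)) = y := by
  have hD : DD ev (fun c => (⟨ev c y, h.idem c y⟩ : BB R)) := by
    refine ⟨fun c d hcd => (inf_bot_iff _ _).2 (h.orth c d y hcd), fun z hz => ?_,
      fun c => ⟨y, h.idem c y⟩⟩
    exact Subtype.ext (h.total y z.1 fun c => (inf_bot_iff _ _).1 (hz c))
  exact ⟨hD, h.inj _ _ fun c => gg_spec h hD c⟩

theorem gg_inj (h : EvD p m ev) [Finite (KC p m)] {X Y : KC p m → BB R} (hX : DD ev X)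
    (hY : DD ev Y) : gg ev X = gg ev Y ↔ ∀ c, X c = Y c := by
  constructor
  · intro e c
    apply Subtype.ext
    rw [← gg_spec h hX c, ← gg_spec h hY c, e]
  · intro e
    rw [funext e]

theorem gg_mul (h : EvD p m ev) [Finite (KC p m)] {X Y Z : KC p m → BB R} (hX : DD ev X)
    (hY : DD ev Y) (hZ : DD ev Z) : gg ev X * gg ev Y = gg ev Z ↔
      ∀ c d e : KC p m, e.1 = c.1 * d.1 → X c ⊓ Y d ≤ Z e := by
  rw [mul_iff h]
  simp only [gg_spec h hX, gg_spec h hY, gg_spec h hZ, le_val, inf_val]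

theorem gg_add (h : EvD p m ev) [Finite (KC p m)] {X Y Z : KC p m → BB R} (hX : DD ev X)
    (hY : DD ev Y) (hZ : DD ev Z) : gg ev X + gg ev Y = gg ev Z ↔
      ∀ c d e : KC p m, e.1 = c.1 + d.1 → X c ⊓ Y d ≤ Z e := by
  rw [add_iff' h]
  simp only [gg_spec h hX, gg_spec h hY, gg_spec h hZ, le_val, inf_val]

theorem gg_idem (h : EvD p m ev) [Finite (KC p m)] {X : KC p m → BB R} (hX : DD ev X) :
    gg ev X * gg ev X = gg ev X ↔ ∀ c : KC p m, c.1 ≠ 0 → c.1 ≠ 1 → X c = ⊥ := by
  rw [idem_iff h]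
  simp only [gg_spec h hX, Subtype.ext_iff, bot_val]

open Classical in
/-- the idempotent given by an element of the ring -/
noncomputable def ff (x : Fin 1 → R) : BB R :=
  if h : IsIdempotentElem (x 0) then ⟨x 0, h⟩ else ⊥

theorem ff_val {x : Fin 1 → R} (h : x 0 * x 0 = x 0) : (ff x).1 = x 0 := by
  unfold ff
  rw [dif_pos (show IsIdempotentElem (x 0) from h)]

theorem finite_KC (hm : 2 ≤ m) : Finite (KC p m) := by
  have h : (Polynomial.X ^ m - Polynomial.X : Polynomial (AlgebraicClosure (ZMod p))) ≠ 0 := by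
    intro h0
    have h1 := congrArg (fun q => Polynomial.coeff q m) h0
    simp only [Polynomial.coeff_sub, Polynomial.coeff_X_pow, if_true, Polynomial.coeff_X,
      Polynomial.coeff_zero] at h1
    rw [if_neg (by omega)] at h1
    simp at h1
  have h2 := Polynomial.rootSet_finite
    (Polynomial.X ^ m - Polynomial.X : Polynomial (AlgebraicClosure (ZMod p)))
    (AlgebraicClosure (ZMod p))
  have h3 : {c : AlgebraicClosure (ZMod p) | c ^ m = c} ⊆
      (Polynomial.X ^ m - Polynomial.X : Polynomial (AlgebraicClosure (ZMod p))).rootSet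
        (AlgebraicClosure (ZMod p)) := by
    intro c hc
    rw [Polynomial.mem_rootSet]
    refine ⟨h, ?_⟩
    have hc' : c ^ m = c := hc
    simp [hc']
  exact (h2.subset h3).to_subtype

theorem infinite_BB (h : EvD p m ev) [Finite (KC p m)] [Infinite R] : Infinite (BB R) := by
  rw [← not_finite_iff_infinite]
  intro hfin
  have hinj : Function.Injective (fun (x : R) (c : KC p m) => (⟨ev c x, h.idem c x⟩ : BB R)) := by
    intro x y hxy
    apply h.inj
    intro c
    exact congrArg Subtype.val (congrFun hxy c)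
  have : Finite R := Finite.of_injective _ hinj
  exact not_finite R

end Alg

section DefB

variable {p m : ℕ} [Fact p.Prime] {R : Type} [CommRing R] {ev : KC p m → R → R}

theorem b_le (P : S_DPC) {α : Type} (i j : α) :
    DefP (str (· ≤ ·) (muQ ev)) (fun v : α → BB R => v i ≤ v j) :=
  @drel (LM (Set (KC p m))) (BB R) (str (· ≤ ·) (muQ ev)) P α 2 Sym.le ![i, j]

theorem b_val (P : S_DPC) {α : Type} (i : α) (s : Set (KC p m)) :
    DefP (str (· ≤ ·) (muQ ev)) (fun v : α → BB R => muQ ev (v i) = s) :=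
  @drel (LM (Set (KC p m))) (BB R) (str (· ≤ ·) (muQ ev)) P α 1 (Sym.val s) ![i]

theorem b_disj (P : S_DPC) {α : Type} (i j : α) :
    DefP (str (· ≤ ·) (muQ ev)) (fun v : α → BB R => v i ⊓ v j = ⊥) := by
  refine dcongr (dall1 (s := fun (z : BB R) (v : α → BB R) => z ≤ v i → z ≤ v j → z = ⊥) P
    (dimp P (b_le P (Sum.inr 0) (Sum.inl i)) (dimp P (b_le P (Sum.inr 0) (Sum.inl j))
      (dpar P (Sum.inr 0) ⊥)))) fun v => ?_
  constructor
  · intro H
    exact H _ inf_le_left inf_le_right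
  · intro e z h1 h2
    exact le_bot_iff.1 (e ▸ le_inf h1 h2)

theorem b_le3 (P : S_DPC) {α : Type} (i j k : α) :
    DefP (str (· ≤ ·) (muQ ev)) (fun v : α → BB R => v i ⊓ v j ≤ v k) := by
  refine dcongr (dall1 (s := fun (z : BB R) (v : α → BB R) => z ≤ v i → z ≤ v j → z ≤ v k) P
    (dimp P (b_le P (Sum.inr 0) (Sum.inl i)) (dimp P (b_le P (Sum.inr 0) (Sum.inl j))
      (b_le P (Sum.inr 0) (Sum.inl k))))) fun v => ?_
  constructor
  · intro H
    exact H _ inf_le_left inf_le_right
  · intro e z h1 h2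
    exact (le_inf h1 h2).trans e

theorem b_Q (P : S_DPC) [Finite (KC p m)] {α : Type} (c : KC p m) (i : α) :
    DefP (str (· ≤ ·) (muQ ev)) (fun v : α → BB R => Q ev c (v i).1) := by
  refine dcongr (dfin (ι := {s : Set (KC p m) // c ∈ s}) P
    (s := fun s (v : α → BB R) => ¬ muQ ev (v i) = s.1)
    (fun s => dnot P (b_val P i s.1))) fun v => ?_
  constructor
  · intro H
    by_contra hc
    exact H ⟨muQ ev (v i), hc⟩ rfl
  · intro hq s hs
    have h1 : c ∈ muQ ev (v i) := hs ▸ s.2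
    exact h1 hq

theorem b_DD (P : S_DPC) [Finite (KC p m)] {α : Type} (k : KC p m → α) :
    DefP (str (· ≤ ·) (muQ ev)) (fun v : α → BB R => DD ev (fun c => v (k c))) :=
  dand P (dfin P fun c => dfin P fun d => dimp P (dconst P (c ≠ d)) (b_disj P (k c) (k d)))
    (dand P (dall1 (s := fun (z : BB R) (v : α → BB R) => (∀ c, z ⊓ v (k c) = ⊥) → z = ⊥) P
      (dimp P (dfin P fun c => b_disj P (Sum.inr 0) (Sum.inl (k c)))
        (dpar P (Sum.inr 0) ⊥))) (dfin P fun c => b_Q P c (k c)))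

end DefB

section DefR

variable {R : Type} [inst : CommRing R]

theorem r_mul (P : S_DPC) {α : Type} (i j k : α) :
    DefP (strR inst) (fun v : α → R => v i * v j = v k) :=
  @dfunc LR R (strR inst) P α 2 SymR.mul ![i, j] k

theorem r_add (P : S_DPC) {α : Type} (i j k : α) :
    DefP (strR inst) (fun v : α → R => v i + v j = v k) :=
  @dfunc LR R (strR inst) P α 2 SymR.add ![i, j] k

theorem DT_mul (P : S_DPC) {α : Type} {τ σ : (α → R) → R} (hτ : DT (strR inst) τ)
    (hσ : DT (strR inst) σ) : DT (strR inst) (fun v => τ v * σ v) :=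
  DT_op (op := fun a b => a * b) P
    (fun _ i j k => dcongr (r_mul P i j k) fun _ => eq_comm) hτ hσ

theorem DT_sub (P : S_DPC) {α : Type} {τ σ : (α → R) → R} (hτ : DT (strR inst) τ)
    (hσ : DT (strR inst) σ) : DT (strR inst) (fun v => τ v - σ v) :=
  DT_op (op := fun a b => a - b) P
    (fun _ i j k => dcongr (r_add P k j i) fun _ => eq_sub_iff_add_eq.symm) hτ hσ

theorem DT_pow (P : S_DPC) {α : Type} {τ : (α → R) → R} (hτ : DT (strR inst) τ) (k : ℕ) :
    DT (strR inst) (fun v => τ v ^ k) := by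
  induction k with
  | zero =>
    have h := DT_par (S := strR inst) (α := α) P (1 : R)
    simpa only [pow_zero] using h
  | succ k ih =>
    have h := DT_mul P ih hτ
    simpa only [pow_succ] using h

theorem r_ideal (P : S_DPC) {β : Type} (N : ℕ) (i : β) :
    DefP (strR inst) (fun v : β → R => ∃ x, x ^ N * v i = v i ∧
      ∀ k, 0 < k → k < N → ∃ y, y * (x ^ k - 1) * v i = v i) := by
  have h1 : DefP (strR inst) (fun u : β ⊕ Fin 1 → R =>
      u (Sum.inr 0) ^ N * u (Sum.inl i) = u (Sum.inl i)) :=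
    deqT P (DT_mul P (DT_pow P (DT_var P (Sum.inr 0)) N) (DT_var P (Sum.inl i)))
      (DT_var P (Sum.inl i))
  have h2 : ∀ k : Fin N, DefP (strR inst) (fun u : β ⊕ Fin 1 → R =>
      ∃ y, y * (u (Sum.inr 0) ^ k.1 - 1) * u (Sum.inl i) = u (Sum.inl i)) := by
    intro k
    refine dex1 (s := fun (y : R) (u : β ⊕ Fin 1 → R) =>
      y * (u (Sum.inr 0) ^ k.1 - 1) * u (Sum.inl i) = u (Sum.inl i)) P ?_
    exact deqT P (DT_mul P (DT_mul P (DT_var P (Sum.inr 0))
      (DT_sub P (DT_pow P (DT_var P (Sum.inl (Sum.inr 0))) k.1) (DT_par P 1)))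
      (DT_var P (Sum.inl (Sum.inl i)))) (DT_var P (Sum.inl (Sum.inl i)))
  refine dex1 (s := fun (x : R) (v : β → R) => x ^ N * v i = v i ∧
      ∀ k, 0 < k → k < N → ∃ y, y * (x ^ k - 1) * v i = v i) P (dand P h1 ?_)
  refine dcongr (dfin P fun k : Fin N => dimp P (dconst P (0 < k.1)) (h2 k)) fun u => ?_
  constructor
  · intro H k hk hkN
    exact H ⟨k, hkN⟩ hk
  · intro H k hk
    exact H k.1 hk k.2

end DefR

section Main

variable {p m : ℕ} [Fact p.Prime] {R : Type} [inst : CommRing R] {ev : KC p m → R → R}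

/-- membership in the ideal, in the ring -/
def Qr (c : KC p m) (b : R) : Prop := c.1 ≠ 0 → ∃ x, x ^ orderOf c.1 * b = b ∧
  ∀ k, 0 < k → k < orderOf c.1 → ∃ y, y * (x ^ k - 1) * b = b

theorem Qr_iff (h : EvD p m ev) (c : KC p m) {b : R} (hb : b * b = b) : Qr c b ↔ Q ev c b := by
  by_cases h0 : c.1 = 0
  · constructor
    · intro _
      exact ⟨0, by rw [h.zero c h0, mul_one]⟩
    · intro _ h1
      exact absurd h0 h1
  · rw [Q, h.ideal c b h0 hb]
    exact ⟨fun H => H h0, fun H _ => H⟩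

theorem r_Qr (P : S_DPC) {α : Type} (c : KC p m) (i : α) :
    DefP (strR inst) (fun v : α → R => Qr c (v i)) :=
  dimp P (dconst P (c.1 ≠ 0)) (r_ideal P (orderOf c.1) i)

/-- The value of the measure. -/
theorem r_mu (P : S_DPC) (h : EvD p m ev) [Finite (KC p m)] (s : Set (KC p m)) :
    DefP (strR inst) (fun x : Fin 1 → R => x 0 * x 0 = x 0 ∧ muQ ev (ff x) = s) := by
  refine dcongr (dand P (r_mul P (0 : Fin 1) 0 0) (dfin P fun c : KC p m =>
    dand P (dimp P (r_Qr P c (0 : Fin 1)) (dconst P (c ∉ s)))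
      (dimp P (dconst P (c ∉ s)) (r_Qr P c (0 : Fin 1))))) fun x => ?_
  refine and_congr_right fun hx => ?_
  have e : (ff x).1 = x 0 := ff_val hx
  constructor
  · intro H
    ext c
    have h1 := H c
    rw [Qr_iff h c hx, ← e] at h1
    constructor
    · intro h2
      by_contra h3
      exact h2 (h1.2 h3)
    · intro h2 h3
      exact h1.1 h3 h2
  · rintro rfl c
    rw [Qr_iff h c hx, ← e]
    constructor
    · intro h1 h2
      exact h2 h1
    · intro h1
      by_contra h2
      exact h1 h2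

/-- The composition. -/
theorem b_comp (P : S_DPC) (h : EvD p m ev) [Finite (KC p m)] {α : Type} (k : KC p m → α)
    (j : α) : DefP (str (· ≤ ·) (muQ ev)) (fun v : α → BB R => DD ev (fun c => v (k c)) ∧
      gg ev (fun c => v (k c)) * gg ev (fun c => v (k c)) = gg ev (fun c => v (k c)) ∧
      ff (fun _ => gg ev (fun c => v (k c))) = v j) := by
  refine dcongr (dand P (b_DD P k) (dand P (dfin P fun c : KC p m =>
    dimp P (dconst P (c.1 ≠ 0)) (dimp P (dconst P (c.1 ≠ 1)) (dpar P (k c) ⊥)))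
    (deq P (k ⟨1, one_pow m⟩) j))) fun v => ?_
  refine and_congr_right fun hD => ?_
  rw [gg_idem h hD]
  refine and_congr_right fun hi => ?_
  have hi' := (gg_idem h hD).2 hi
  have e1 : (ff (fun _ => gg ev (fun c => v (k c)))).1 = gg ev (fun c => v (k c)) :=
    ff_val (x := fun _ => gg ev (fun c => v (k c))) hi'
  have e2 : ev ⟨1, one_pow m⟩ (gg ev (fun c => v (k c))) = gg ev (fun c => v (k c)) :=
    h.one _ _ rfl hi'
  have e3 : ff (fun _ => gg ev (fun c => v (k c))) = v (k ⟨1, one_pow m⟩) := by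
    apply Subtype.ext
    rw [e1, ← e2, gg_spec h hD]
  rw [e3]

/-- `BiD` for structures on arbitrary types -/
def BiG {L : FirstOrder.Language.{0, 0}} {U : Type} (S : L.Structure U) {M B : Type}
    [BooleanAlgebra B] (mu : B → M) : Prop :=
  ∃ (t r : ℕ) (D : (Fin r → B) → Prop) (g : (Fin r → B) → U) (E : (Fin t → U) → Prop)
    (f : (Fin t → U) → B),
    DefP (str (· ≤ ·) mu) D ∧ (∀ s, ∃ x, D x ∧ g x = s) ∧
    DefP (str (· ≤ ·) mu) (fun v : Fin 2 × Fin r → B => (∀ i, D fun j => v (i, j)) ∧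
      g (fun j => v (0, j)) = g (fun j => v (1, j))) ∧
    (∀ (l : ℕ) (R : L.Relations l), DefP (str (· ≤ ·) mu)
      (fun v : Fin l × Fin r → B => (∀ i, D fun j => v (i, j)) ∧
        @Structure.RelMap L U S l R (fun i => g fun j => v (i, j)))) ∧
    (∀ (l : ℕ) (F : L.Functions l), DefP (str (· ≤ ·) mu)
      (fun v : Fin (l + 1) × Fin r → B => (∀ i, D fun j => v (i, j)) ∧
        @Structure.funMap L U S l F (fun i => g fun j => v (i.castSucc, j)) =
          g (fun j => v (Fin.last l, j)))) ∧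
    DefP S E ∧ (∀ b, ∃ x, E x ∧ f x = b) ∧
    DefP S (fun v : Fin 2 × Fin t → U => (∀ i, E fun j => v (i, j)) ∧
      f (fun j => v (0, j)) ≤ f (fun j => v (1, j))) ∧
    (∀ c, DefP S (fun x : Fin t → U => E x ∧ mu (f x) = c)) ∧
    DefP (str (· ≤ ·) mu) (fun v : (Fin t × Fin r) ⊕ Fin 1 → B =>
      (∀ i, D fun j => v (Sum.inl (i, j))) ∧ (E fun i => g fun j => v (Sum.inl (i, j))) ∧
        f (fun i => g fun j => v (Sum.inl (i, j))) = v (Sum.inr 0))

theorem big (P : S_DPC) (h : EvD p m ev) [Finite (KC p m)] :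
    BiG (strR inst) (muQ ev) := by
  obtain ⟨r, ⟨eqv⟩⟩ : ∃ r, Nonempty (KC p m ≃ Fin r) :=
    ⟨Nat.card (KC p m), ⟨Finite.equivFin (KC p m)⟩⟩
  refine ⟨1, r, fun x => DD ev (fun c => x (eqv c)), fun x => gg ev (fun c => x (eqv c)),
    fun x => x 0 * x 0 = x 0, ff, b_DD P eqv, ?_, ?_, ?_, ?_, r_mul P 0 0 0, ?_, ?_,
    fun s => r_mu P h s, ?_⟩
  · intro s
    refine ⟨fun j => ⟨ev (eqv.symm j) s, h.idem _ s⟩, ?_⟩
    have e : (fun c => (⟨ev (eqv.symm (eqv c)) s, h.idem _ s⟩ : BB R)) =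
        fun c => (⟨ev c s, h.idem c s⟩ : BB R) := by
      funext c
      apply Subtype.ext
      show ev (eqv.symm (eqv c)) s = ev c s
      rw [Equiv.symm_apply_apply]
    show DD ev (fun c => (⟨ev (eqv.symm (eqv c)) s, h.idem _ s⟩ : BB R)) ∧
      gg ev (fun c => (⟨ev (eqv.symm (eqv c)) s, h.idem _ s⟩ : BB R)) = s
    rw [e]
    exact gg_onto h s
  · refine dcongr (dand P (dfin P fun i : Fin 2 => b_DD P fun c => (i, eqv c))
      (dfin P fun c : KC p m => deq P ((0 : Fin 2), eqv c) (1, eqv c))) fun v => ?_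
    exact and_congr_right fun hD => (gg_inj h (hD 0) (hD 1)).symm
  · intro l R
    exact Empty.elim R
  · intro l F
    cases F with
    | add =>
      refine dcongr (dand P (dfin P fun i : Fin 3 => b_DD P fun c => (i, eqv c))
        (dfin P fun c : KC p m => dfin P fun d : KC p m => dfin P fun e : KC p m =>
          dimp P (dconst P (e.1 = c.1 + d.1))
            (b_le3 P ((0 : Fin 3), eqv c) (1, eqv d) (2, eqv e)))) fun v => ?_
      exact and_congr_right fun hD => (gg_add h (hD 0) (hD 1) (hD 2)).symm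
    | mul =>
      refine dcongr (dand P (dfin P fun i : Fin 3 => b_DD P fun c => (i, eqv c))
        (dfin P fun c : KC p m => dfin P fun d : KC p m => dfin P fun e : KC p m =>
          dimp P (dconst P (e.1 = c.1 * d.1))
            (b_le3 P ((0 : Fin 3), eqv c) (1, eqv d) (2, eqv e)))) fun v => ?_
      exact and_congr_right fun hD => (gg_mul h (hD 0) (hD 1) (hD 2)).symm
  · intro b
    have hb : b.1 * b.1 = b.1 := b.2
    exact ⟨fun _ => b.1, hb, Subtype.ext (ff_val (x := fun _ => b.1) hb)⟩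
  · refine dcongr (dand P (dfin P fun i : Fin 2 => r_mul P (i, (0 : Fin 1)) (i, 0) (i, 0))
      (r_mul P ((0 : Fin 2), (0 : Fin 1)) (1, 0) (0, 0))) fun v => ?_
    refine and_congr_right fun hD => ?_
    rw [le_val, ff_val (hD 0), ff_val (hD 1)]
  · refine dcongr (b_comp P h (fun c => (Sum.inl ((0 : Fin 1), eqv c) :
      (Fin 1 × Fin r) ⊕ Fin 1)) (Sum.inr 0)) fun v => ?_
    constructor
    · rintro ⟨a1, a2, a3⟩
      refine ⟨fun i => ?_, a2, ?_⟩
      · have hi : i = 0 := Subsingleton.elim _ _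
        subst hi
        exact a1
      · rw [← a3]
        congr 1
        funext i
        have hi : i = 0 := Subsingleton.elim _ _
        subst hi
        rfl
    · rintro ⟨a1, a2, a3⟩
      refine ⟨a1 0, a2, ?_⟩
      rw [← a3]
      congr 1
      funext i
      have hi : i = 0 := Subsingleton.elim _ _
      subst hi
      rfl

end Main

theorem finite_LR : Finite LR.Symbols := by
  have h1 : Finite (Σ l, LR.Functions l) := by
    have hs : Function.Surjective (fun b : Bool => (match b with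
      | true => ⟨2, SymR.add⟩
      | false => ⟨2, SymR.mul⟩ : Σ l, LR.Functions l)) := by
      rintro ⟨l, F⟩
      cases F with
      | add => exact ⟨true, rfl⟩
      | mul => exact ⟨false, rfl⟩
    exact Finite.of_surjective _ hs
  have h2 : IsEmpty (Σ l, LR.Relations l) := ⟨fun x => Empty.elim x.2⟩
  exact inferInstanceAs (Finite ((Σ l, LR.Functions l) ⊕ Σ l, LR.Relations l))

/-- **RNB.** -/
theorem RNB (DPC : S_DPC) (BMD : S_BMD) : S_RNB := by
  intro p _ m hm R ev h
  have hf : Finite (KC p m) := finite_KC hm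
  have h1 := @big p m _ ℕ R ev DPC h hf
  have h2 := @am_muQ p m _ ℕ R ev h
  have h3 : Infinite (@BB ℕ R) := @infinite_BB p m _ ℕ R ev h hf _
  have h4 : Countable (@BB ℕ R) := Subtype.countable
  exact @BMD LR finite_LR (strR R) (Set (KC p m)) (unionM _) _ (@BB ℕ R) _ h4 h3
    (@muQ p m _ ℕ R ev) h2 h1

end Pool.Agent.N521.VB
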